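import Mathlib
import Pool.Agent.helper85.PG.Spec3

/-!
# Minimal vectors (MVV)
-/

set_option autoImplicit false

namespace Pool.Agent.helper85.PG

open Module

namespace MVVaux

variable {E : Type} [NormedAddCommGroup E] [NormedSpace ℝ E] {H : Type} [AddCommGroup H]

/-- the span of the first coordinates of a ball -/
noncomputable def sp (G : AddSubgroup (E × H)) (l : ℝ) : Submodule ℝ E :=
  Submodule.span ℝ (Prod.fst '' ball G l)

theorem fst_mem_sp (G : AddSubgroup (E × H)) {l : ℝ} {z : E × H} (hz : z ∈ ball G l) :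
    z.1 ∈ sp G l := Submodule.subset_span ⟨z, hz, rfl⟩

/-- extension of an independent family by elements of the ball -/
theorem extend [FiniteDimensional ℝ E] (G : AddSubgroup (E × H)) (l' : ℝ) (hl' : 0 ≤ l')
    {a : ℕ} (v : Fin a → E × H) (hv : ∀ i, v i ∈ ball G l')
    (hli : LinearIndependent ℝ (fun i => (v i).1)) : ∀ j : ℕ, a + j ≤ finrank ℝ (sp G l') →
      ∃ w : Fin (a + j) → E × H, (∀ i, w i ∈ ball G l') ∧
        LinearIndependent ℝ (fun i => (w i).1) ∧
        ∏ i, ‖(w i).1‖ ≤ (∏ i, ‖(v i).1‖) * l' ^ j := by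
  intro j
  induction j with
  | zero =>
    intro _
    refine ⟨v, hv, hli, ?_⟩
    rw [pow_zero, mul_one]
    exact le_rfl
  | succ j ih =>
    intro hj
    obtain ⟨w, hw, hwl, hwp⟩ := ih (by omega)
    have hex : ∃ z ∈ ball G l', z.1 ∉ Submodule.span ℝ (Set.range fun i => (w i).1) := by
      by_contra hcon
      push Not at hcon
      have hle : sp G l' ≤ Submodule.span ℝ (Set.range fun i => (w i).1) := by
        refine Submodule.span_le.2 ?_
        rintro _ ⟨z, hz, rfl⟩
        exact hcon z hz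
      have h1 := Submodule.finrank_mono hle
      have h2 : finrank ℝ (Submodule.span ℝ (Set.range fun i => (w i).1)) ≤ a + j := by
        have h3 := finrank_range_le_card (R := ℝ) (fun i => (w i).1)
        rw [Fintype.card_fin] at h3
        exact h3
      omega
    obtain ⟨z, hz, hzn⟩ := hex
    refine ⟨Fin.cons z w, ?_, ?_, ?_⟩
    · intro i
      refine Fin.cases ?_ (fun i => ?_) i
      · rw [Fin.cons_zero]; exact hz
      · rw [Fin.cons_succ]; exact hw i
    · have h4 : (fun i => ((Fin.cons z w : Fin (a + j + 1) → E × H) i).1)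
          = (Fin.cons z.1 (fun i => (w i).1) : Fin (a + j + 1) → E) := by
        funext i
        refine Fin.cases ?_ (fun i => ?_) i
        · rw [Fin.cons_zero, Fin.cons_zero]
        · rw [Fin.cons_succ, Fin.cons_succ]
      have h5 : LinearIndependent ℝ (Fin.cons z.1 (fun i => (w i).1) : Fin (a + j + 1) → E) :=
        linearIndependent_finCons.2 ⟨hwl, hzn⟩
      rw [← h4] at h5
      exact h5
    · have h6 : ∏ i, ‖((Fin.cons z w : Fin (a + j + 1) → E × H) i).1‖
          = ‖z.1‖ * ∏ i, ‖(w i).1‖ := by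
        rw [Fin.prod_univ_succ, Fin.cons_zero]
        refine congrArg _ (Finset.prod_congr rfl fun i _ => ?_)
        rw [Fin.cons_succ]
      have h7 : ‖z.1‖ * ∏ i, ‖(w i).1‖ ≤ l' * ((∏ i, ‖(v i).1‖) * l' ^ j) :=
        mul_le_mul hz.2 hwp (Finset.prod_nonneg fun i _ => norm_nonneg _) hl'
      refine (h6.le.trans h7).trans (le_of_eq ?_)
      rw [pow_succ]
      ring

/-- a radius where the dimension drops -/
theorem exists_drop [FiniteDimensional ℝ E] (G : AddSubgroup (E × H)) (hG : FB G) {l : ℝ}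
    (hl : 0 < l) (hs : 0 < finrank ℝ (sp G l)) :
    ∃ l' : ℝ, 0 < l' ∧ l' ≤ l ∧ finrank ℝ (sp G l') = finrank ℝ (sp G l) ∧
      finrank ℝ (sp G (l' / 2)) < finrank ℝ (sp G l) := by
  classical
  have hmono : ∀ {r r' : ℝ}, r ≤ r' → finrank ℝ (sp G r) ≤ finrank ℝ (sp G r') := by
    intro r r' hr
    exact Submodule.finrank_mono (Submodule.span_mono (Set.image_mono (ball_mono G hr)))
  have hex : ∃ k : ℕ, finrank ℝ (sp G (l / 2 ^ k)) < finrank ℝ (sp G l) := by
    let F : Finset (E × H) := (hG l).toFinset.filter fun z => z.1 ≠ 0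
    have hF : F.Nonempty := by
      by_contra hcon
      rw [Finset.not_nonempty_iff_eq_empty] at hcon
      have hbot : sp G l ≤ ⊥ := by
        refine Submodule.span_le.2 ?_
        rintro _ ⟨z, hz, rfl⟩
        by_contra hz0
        have hzF : z ∈ F := Finset.mem_filter.2 ⟨(Set.Finite.mem_toFinset _).2 hz, fun h =>
          hz0 (by rw [h]; exact Submodule.zero_mem _)⟩
        rw [hcon] at hzF
        exact absurd hzF (Finset.notMem_empty _)
      rw [le_bot_iff] at hbot
      rw [hbot, finrank_bot] at hs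
      exact absurd hs (lt_irrefl _)
    obtain ⟨z0, hz0, hmin⟩ := Finset.exists_min_image F (fun z => ‖z.1‖) hF
    have hz0n : 0 < ‖z0.1‖ := norm_pos_iff.2 (Finset.mem_filter.1 hz0).2
    obtain ⟨k, hk⟩ := pow_unbounded_of_one_lt (l / ‖z0.1‖) (one_lt_two : (1 : ℝ) < 2)
    refine ⟨k, ?_⟩
    have hk2 : l / 2 ^ k < ‖z0.1‖ := by
      rw [div_lt_iff₀ (by positivity)]
      rw [div_lt_iff₀ hz0n] at hk
      rw [mul_comm]
      exact hk
    have hkl : l / 2 ^ k ≤ l := div_le_self hl.le (one_le_pow₀ one_le_two)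
    have hbot : sp G (l / 2 ^ k) ≤ ⊥ := by
      refine Submodule.span_le.2 ?_
      rintro _ ⟨z, hz, rfl⟩
      by_contra hzn
      have hzF : z ∈ F := Finset.mem_filter.2 ⟨(Set.Finite.mem_toFinset _).2
        (ball_mono G hkl hz), fun h => hzn (by rw [h]; exact Submodule.zero_mem _)⟩
      have h1 := hmin z hzF
      exact absurd (h1.trans hz.2) (not_le.2 hk2)
    rw [le_bot_iff] at hbot
    rw [hbot, finrank_bot]
    exact hs
  have hfind := Nat.find_spec hex
  have hmin := fun k => Nat.find_min (m := k) hex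
  generalize Nat.find hex = n at hfind hmin
  cases n with
  | zero =>
    rw [pow_zero, div_one] at hfind
    exact absurd hfind (lt_irrefl _)
  | succ k =>
    have h1 := hmin k (Nat.lt_succ_self k)
    have hkl : l / 2 ^ k ≤ l := div_le_self hl.le (one_le_pow₀ one_le_two)
    refine ⟨l / 2 ^ k, by positivity, hkl, le_antisymm (hmono hkl) (not_lt.1 h1), ?_⟩
    have h2 : l / 2 ^ k / 2 = l / 2 ^ (k + 1) := by
      rw [pow_succ, div_div]
    rw [h2]
    exact hfind

/-- the count of the elements of a ball -/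
theorem count (hPK : PK_stmt) [FiniteDimensional ℝ E] (G : AddSubgroup (E × H)) (hG : FB G)
    {l m : ℝ} (hl : 0 ≤ l) (hm : 0 < m) :
    ((ball G l).ncard : ℝ) ≤ (1 + 2 * l / m) ^ finrank ℝ (sp G l) * ((ball G m).ncard : ℝ) := by
  classical
  obtain ⟨T, _, hTc, hT⟩ := hPK E H G (sp G l) l m hl hm fun z hz => fst_mem_sp G hz
  have hsub : (hG l).toFinset ⊆ (T ×ˢ (hG m).toFinset).image fun q => q.1 + q.2 := by
    intro z hz
    rw [Set.Finite.mem_toFinset] at hz
    obtain ⟨t, ht, hzt⟩ := hT z hz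
    refine Finset.mem_image.2 ⟨(t, z - t), Finset.mem_product.2 ⟨ht, ?_⟩, ?_⟩
    · rw [Set.Finite.mem_toFinset]; exact hzt
    · exact add_sub_cancel _ _
  have h1 := (Finset.card_le_card hsub).trans Finset.card_image_le
  rw [Finset.card_product, ← Set.ncard_eq_toFinset_card _ (hG l),
    ← Set.ncard_eq_toFinset_card _ (hG m)] at h1
  have h2 : ((ball G l).ncard : ℝ) ≤ (T.card : ℝ) * ((ball G m).ncard : ℝ) := by
    exact_mod_cast h1
  exact h2.trans (mul_le_mul_of_nonneg_right hTc (Nat.cast_nonneg _))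

end MVVaux

open MVVaux in
theorem MVV (hPK : PK_stmt) : MVV_stmt := by
  intro E _ _ _ H _ G hG s
  induction s using Nat.strong_induction_on with
  | _ s ih =>
  intro l hl hs
  change finrank ℝ (sp G l) = s at hs
  rcases Nat.eq_zero_or_pos s with h0 | hpos
  · subst h0
    refine ⟨Fin.elim0, fun i => i.elim0, linearIndependent_empty_type, ?_⟩
    have hbot : sp G l = ⊥ := Submodule.finrank_eq_zero.1 hs
    have hball : ball G l = ball G 0 := by
      refine Set.Subset.antisymm ?_ (ball_mono G hl.le)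
      intro z hz
      have h1 := fst_mem_sp G hz
      rw [hbot, Submodule.mem_bot] at h1
      exact ⟨hz.1, by rw [h1, norm_zero]⟩
    rw [hball, Fin.prod_univ_zero, zero_mul, pow_zero, pow_zero]
    rw [mul_one, one_mul, one_mul]
  · obtain ⟨l', hl', hl'l, hr1, hr2⟩ := exists_drop G hG hl (by omega)
    rw [hs] at hr1 hr2
    obtain ⟨a, ha⟩ : ∃ a, finrank ℝ (sp G (l' / 2)) = a := ⟨_, rfl⟩
    rw [ha] at hr2
    obtain ⟨v, hv, hvl, hvp⟩ := ih a hr2 (l' / 2) (by positivity) ha
    obtain ⟨j, rfl⟩ := Nat.exists_eq_add_of_le hr2.le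
    obtain ⟨w, hw, hwl, hwp⟩ := extend G l' hl'.le v
      (fun i => ball_mono G (by linarith) (hv i)) hvl j hr1.ge
    refine ⟨w, fun i => ball_mono G hl'l (hw i), hwl, ?_⟩
    have hc := count hPK G hG hl.le (show 0 < l' / 2 by positivity)
    rw [hs] at hc
    have hP : 0 ≤ ∏ i, ‖(v i).1‖ := Finset.prod_nonneg fun i _ => norm_nonneg _
    have hQ : 0 ≤ ∏ i, ‖(w i).1‖ := Finset.prod_nonneg fun i _ => norm_nonneg _
    generalize (∏ i, ‖(v i).1‖) = P at hP hvp hwp
    generalize (∏ i, ‖(w i).1‖) = Q at hQ hwp ⊢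
    have hM0 : (0 : ℝ) ≤ ((ball G (l' / 2)).ncard : ℝ) := Nat.cast_nonneg _
    have hZ0 : (0 : ℝ) ≤ ((ball G 0).ncard : ℝ) := Nat.cast_nonneg _
    generalize ((ball G l).ncard : ℝ) = B at hc ⊢
    generalize ((ball G (l' / 2)).ncard : ℝ) = M at hc hvp hM0
    generalize ((ball G 0).ncard : ℝ) = Z at hvp hZ0 ⊢
    have hx0 : (0 : ℝ) ≤ 1 + 2 * l / (l' / 2) := by positivity
    have e1 : (1 + 2 * l / (l' / 2)) ^ (a + j) * l' ^ (a + j) ≤ 6 ^ (a + j) * l ^ (a + j) := by
      rw [← mul_pow, ← mul_pow]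
      refine pow_le_pow_left₀ (by positivity) ?_ _
      have h1 : (1 + 2 * l / (l' / 2)) * l' = l' + 4 * l := by
        field_simp
        ring
      rw [h1]
      linarith
    generalize (1 + 2 * l / (l' / 2)) = x at hc hx0 e1
    have e2 : B * Q ≤ (x ^ (a + j) * M) * (P * l' ^ j) :=
      mul_le_mul hc hwp hQ (by positivity)
    have e3 : (x ^ (a + j) * M) * (P * l' ^ j) = (x ^ (a + j) * l' ^ j) * (M * P) := by ring
    have e4 : M * P ≤ 6 ^ (a * (a + 1)) * l' ^ a * Z := by
      refine hvp.trans (mul_le_mul_of_nonneg_right (mul_le_mul_of_nonneg_left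
        (pow_le_pow_left₀ (by positivity) (by linarith) _) (by positivity)) hZ0)
    have e5 : (x ^ (a + j) * l' ^ j) * (M * P)
        ≤ (x ^ (a + j) * l' ^ j) * (6 ^ (a * (a + 1)) * l' ^ a * Z) :=
      mul_le_mul_of_nonneg_left e4 (by positivity)
    have e6 : (x ^ (a + j) * l' ^ j) * (6 ^ (a * (a + 1)) * l' ^ a * Z)
        = (x ^ (a + j) * l' ^ (a + j)) * (6 ^ (a * (a + 1)) * Z) := by
      rw [pow_add l' a j]
      ring
    have e7 : (x ^ (a + j) * l' ^ (a + j)) * (6 ^ (a * (a + 1)) * Z)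
        ≤ (6 ^ (a + j) * l ^ (a + j)) * (6 ^ (a * (a + 1)) * Z) :=
      mul_le_mul_of_nonneg_right e1 (by positivity)
    have e8 : ((6 : ℝ) ^ (a + j) * l ^ (a + j)) * (6 ^ (a * (a + 1)) * Z)
        = 6 ^ (a + j + a * (a + 1)) * l ^ (a + j) * Z := by
      rw [pow_add 6 (a + j)]
      ring
    have e9 : (6 : ℝ) ^ (a + j + a * (a + 1)) ≤ 6 ^ ((a + j) * (a + j + 1)) := by
      refine pow_le_pow_right₀ (by norm_num) ?_
      nlinarith
    calc B * Q ≤ (x ^ (a + j) * M) * (P * l' ^ j) := e2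
      _ = _ := e3
      _ ≤ _ := e5
      _ = _ := e6
      _ ≤ _ := e7
      _ = _ := e8
      _ ≤ _ := mul_le_mul_of_nonneg_right (mul_le_mul_of_nonneg_right e9 (by positivity)) hZ0

end Pool.Agent.helper85.PG
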