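import Pool.Agent.helper33.PG.Spec

set_option autoImplicit false

namespace Pool.Agent.PG

open Polynomial Finset

theorem GEN (hMNB : MNB_stmt) : GEN_stmt := by
  intro N n k e hk hn he hd
  have h1 : (k * 2 ^ n + 1) ^ e ≤ 2 ^ N + 1 := Nat.le_of_dvd (by positivity) hd
  have h2 : 2 ^ n < k * 2 ^ n + 1 := by
    have : 1 * 2 ^ n ≤ k * 2 ^ n := Nat.mul_le_mul_right _ hk
    omega
  have h3 : (2 ^ n) ^ e < (k * 2 ^ n + 1) ^ e := Nat.pow_lt_pow_left h2 (by omega)
  have h4 : 2 ^ (n * e) ≤ 2 ^ N := by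
    rw [pow_mul]
    omega
  have h5 : n * e ≤ N := (Nat.pow_le_pow_iff_right (by norm_num)).1 h4
  have h6 : e ≤ N / n := by
    rw [Nat.le_div_iff_mul_le hn]
    rwa [mul_comm] at h5
  refine ⟨h6, hMNB N n k (N / n) (N % n) e hk ?_ hd he h6⟩
  have := Nat.div_add_mod N n
  rw [mul_comm] at this
  exact this.symm

end Pool.Agent.PG
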